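import Pool.Agent.H11.PT3
import Pool.Agent.H23.SC2

set_option autoImplicit false

namespace Pool.Agent.Results.MP_1195b1_lc.Poly
open Pool.Agent.H11.PT Finset

/-- `p` is skew-supermodular on the subsets of `S` -/
def SkewOn (S : Finset ℕ) (p : Finset ℕ → ℤ) : Prop := ∀ X ⊆ S, ∀ Y ⊆ S,
  p X + p Y ≤ p (X ∩ Y) + p (X ∪ Y) ∨ p X + p Y ≤ p (X \ Y) + p (Y \ X)

/-- the numbers `(m₁, m₂, n₁, n₂)` -/
abbrev Inp := ℕ × ℕ × ℕ × ℕ

/-- the size `m₁ n₁ + m₂ n₂` of the ground set -/
def N (x : Inp) : ℕ := x.1 * x.2.2.1 + x.2.1 * x.2.2.2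

/-- a valid input on the ground set `{0, …, N-1}` -/
def Valid (x : Inp) (p q : Finset ℕ → ℤ) : Prop :=
  0 < x.1 ∧ 0 < x.2.1 ∧ 0 < x.2.2.1 ∧ 0 < x.2.2.2 ∧ SkewOn (range (N x)) p ∧ SkewOn (range (N x)) q ∧
    ∀ X ⊆ range (N x), max (p X) (q X) ≤ min (X.card : ℤ) (x.1 + x.2.1 : ℕ)

/-- a feasible partition, with classes numbered by `c` -/
def Feasible (x : Inp) (p q : Finset ℕ → ℤ) : Prop :=
  ∃ c : ℕ → ℕ, (∀ y < N x, c y < x.1 + x.2.1) ∧
    (∀ j < x.1 + x.2.1, ((range (N x)).filter fun y => c y = j).card =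
      if j < x.1 then x.2.2.1 else x.2.2.2) ∧
    ∀ X ⊆ range (N x), max (p X) (q X) ≤ (X.image c).card

abbrev Qu := Bool × ℕ × List ℕ

open Classical in
/-- maximisation oracle: on `(i, c, W)` it tells whether `max_X (p_i X - |X ∩ W|) ≤ c` -/
noncomputable def orc (n : ℕ) (p q : Finset ℕ → ℤ) (y : Qu) : Bool :=
  decide (∀ X ⊆ range n, (bif y.1 then p else q) X - (X ∩ y.2.2.toFinset).card ≤ y.2.1)

/-- the oracle answers received in the first `t` steps -/
def hist (A : Inp × List Bool → Qu × Bool) (O : Qu → Bool) (x : Inp) : ℕ → List Bool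
  | 0 => []
  | t + 1 => hist A O x t ++ [O (A (x, hist A O x t)).1]

open Pool.Agent.H23.SC

abbrev St := List ℕ × List ℕ × List ℕ

def us (n : ℕ) (σ : St) : List ℕ :=
  (List.range n).filter fun y => decide (y ∉ σ.1 ∧ y ∉ σ.2.1 ∧ σ.2.2.count y < n)

def cand (n j : ℕ) (σ : St) (B : List ℕ) (t : ℕ) : List ℕ :=
  (List.range n).filter fun y => if j < n then decide (y ∈ B ∧ ¬ y = j) else if j < 2 * n then
    decide (y ∈ B ∨ y + n = j) else decide ((y ∈ B ∧ ¬ y = t) ∨ y = (us n σ).headD 0)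

def qry (x : Inp) (j : ℕ) (σ : St) (u : ℕ) : Qu :=
  (decide (u % 2 = 0), if u % 4 = 0 ∨ u % 4 = 3 then x.2.1 else x.1,
    if u % 4 < 2 then cand (N x) j σ (if u % 2 = 0 then σ.1 else σ.2.1) (u / 4) else
    (List.range (N x)).filter fun y =>
      decide (y ∉ cand (N x) j σ (if u % 2 = 0 then σ.1 else σ.2.1) (u / 4)))

def pv (n : ℕ) (σ : St) (B : List ℕ) (l : List Bool) (i : ℕ) : List ℕ :=
  (List.range n).filter fun t => decide (t ∈ B ∧ l.getD (4 * t + i) false = true ∧
    l.getD (4 * t + i + 2) false = true ∧ σ.2.2.count t + 1 = σ.2.2.count ((us n σ).headD 0))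

def nxt (x : Inp) (j : ℕ) (σ : St) (l : List Bool) : St :=
  if j < N x then (if l.getD 0 false = true then cand (N x) j σ σ.1 0 else σ.1,
    if l.getD 1 false = true then cand (N x) j σ σ.2.1 0 else σ.2.1, σ.2.2)
  else if j < 2 * N x then
    (if l.getD 2 false = true ∧ σ.1.length < x.1 * x.2.2.1 then cand (N x) j σ σ.1 0 else σ.1,
    if l.getD 3 false = true ∧ σ.2.1.length < x.2.1 * x.2.2.2 then cand (N x) j σ σ.2.1 0
      else σ.2.1, σ.2.2)
  else if us (N x) σ = [] then σ
  else if pv (N x) σ σ.1 l 0 = [] then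
    if pv (N x) σ σ.2.1 l 1 = [] then (σ.1, σ.2.1, (us (N x) σ).headD 0 :: σ.2.2)
    else (σ.1, cand (N x) j σ σ.2.1 ((pv (N x) σ σ.2.1 l 1).headD 0), σ.2.2)
  else (cand (N x) j σ σ.1 ((pv (N x) σ σ.1 l 0).headD 0), σ.2.1, σ.2.2)

def st (x : Inp) (h : List Bool) (j : ℕ) : St :=
  (List.range j).foldl (fun σ j => nxt x j σ ((List.range (4 * N x)).map fun u =>
    h.getD (j * (4 * N x) + u) false)) (List.range (N x), List.range (N x), [])

def vd (x : Inp) (σ : St) : Bool :=
  decide (σ.1.length = x.1 * x.2.2.1 ∧ σ.2.1.length = x.2.1 * x.2.2.2) &&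
    (List.range (N x)).all fun y => decide (y ∈ σ.1 ∨ y ∈ σ.2.1)

def alg (y : Inp × List Bool) : Qu × Bool :=
  (qry y.1 (y.2.length / (4 * N y.1)) (st y.1 y.2 (y.2.length / (4 * N y.1)))
    (y.2.length % (4 * N y.1)), vd y.1 (st y.1 y.2 (y.2.length / (4 * N y.1))))

section
variable {α : Type} [Enc α] {x : α → Inp} {n j t : α → ℕ} {σ : α → St} {B : α → List ℕ}
  {l : α → List Bool}

@[fun_prop] theorem pt_N (h : PT x) : PT fun a => N (x a) := by unfold N; fun_prop

@[fun_prop] theorem pt_us (h : PT n) (h' : PT σ) : PT fun a => us (n a) (σ a) := by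
  unfold us; fun_prop

@[fun_prop] theorem pt_cand (h1 : PT n) (h2 : PT j) (h3 : PT σ) (h4 : PT B) (h5 : PT t) :
    PT fun a => cand (n a) (j a) (σ a) (B a) (t a) := by unfold cand; fun_prop

@[fun_prop] theorem pt_pv (h1 : PT n) (h3 : PT σ) (h4 : PT B) (h2 : PT l) (h5 : PT t) :
    PT fun a => pv (n a) (σ a) (B a) (l a) (t a) := by unfold pv; fun_prop

@[fun_prop] theorem pt_nxt (h1 : PT x) (h2 : PT j) (h3 : PT σ) (h4 : PT l) :
    PT fun a => nxt (x a) (j a) (σ a) (l a) := by unfold nxt; fun_prop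

@[fun_prop] theorem pt_qry (h1 : PT x) (h2 : PT j) (h3 : PT σ) (h4 : PT t) :
    PT fun a => qry (x a) (j a) (σ a) (t a) := by unfold qry; fun_prop

@[fun_prop] theorem pt_vd (h1 : PT x) (h3 : PT σ) : PT fun a => vd (x a) (σ a) := by
  unfold vd; fun_prop

end

theorem pt_alg : PT alg := by
  have : PT fun y : Inp × List Bool => st y.1 y.2 (y.2.length / (4 * N y.1)) := by
    unfold st
    refine PT.foldl_add (α := Inp × List Bool) (l := fun y => List.range (y.2.length / (4 * N y.1)))
      (i := fun y => ((List.range (N y.1), List.range (N y.1), []) : St))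
      (g := fun y σ j => nxt y.1 j σ ((List.range (4 * N y.1)).map fun u =>
      y.2.getD (j * (4 * N y.1) + u) false)) (by fun_prop) (by fun_prop) (by fun_prop)
      (fun y _ => (List.range (N y.1), N y.1, List.range (N y.1))) 0 (by fun_prop) fun y σ j => ?_
    have a : ∀ B t, sz (cand (N y.1) j σ B t) ≤ sz (List.range (N y.1)) := fun B t =>
      sz_sublist List.filter_sublist
    have b : (us (N y.1) σ).headD 0 ≤ N y.1 := by
      cases h : us (N y.1) σ with
      | nil => simp
      | cons s _ =>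
        exact (List.mem_range.1 (List.mem_of_mem_filter (h ▸ List.mem_cons_self : s ∈ us _ σ))).le
    obtain ⟨B, C, L⟩ := σ
    unfold nxt
    split_ifs <;> simp only [sz_pair, sz_cons, sz_nat] <;> grind
  exact (pt_qry (by fun_prop) (by fun_prop) this (by fun_prop)).pair (pt_vd (by fun_prop) this)

def sem (O : Qu → Bool) (x : Inp) : ℕ → St
  | 0 => (List.range (N x), List.range (N x), [])
  | j + 1 => nxt x j (sem O x j) ((List.range (4 * N x)).map fun u => O (qry x j (sem O x j) u))

theorem hist_eq (O : Qu → Bool) (x : Inp) (t : ℕ) :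
    (hist alg O x t).length = t ∧ st x (hist alg O x t) (t / (4 * N x)) = sem O x (t / (4 * N x)) := by
  let g := fun i => O (qry x (i / (4 * N x)) (sem O x (i / (4 * N x))) (i % (4 * N x)))
  have a : ∀ t j, j * (4 * N x) ≤ t → st x ((List.range t).map g) j = sem O x j := fun t j => by
    induction j with
    | zero => exact fun _ => rfl
    | succ j ih =>
      intro h
      rw [add_mul] at h
      have := ih (by omega)
      unfold st at *
      rw [List.range_succ, List.foldl_append, this, sem, List.foldl_cons, List.foldl_nil]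
      congr 1
      refine List.map_congr_left fun u hu => ?_
      rw [List.mem_range] at hu
      rw [List.getD_eq_getElem _ _ (by simp; omega)]
      simp only [List.getElem_map, List.getElem_range, g]
      rw [add_comm, Nat.add_mul_div_right _ _ (by omega), Nat.add_mul_mod_self_right,
        Nat.div_eq_of_lt hu, Nat.mod_eq_of_lt hu, zero_add]
  have b : ∀ t, hist alg O x t = (List.range t).map g := fun t => by
    induction t with
    | zero => rfl
    | succ t ih => simp [hist, ih, List.range_succ, alg, a t _ (Nat.div_mul_le_self _ _), g]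
  rw [b]
  exact ⟨by simp, a t _ (Nat.div_mul_le_self _ _)⟩

theorem greedy {p : Finset ℕ → ℤ} {n a b τ : ℕ} (g : Good p (range n) (a + b)) (W : ℕ → Finset ℕ)
    (h0 : W 0 = range n) (h1 : ∀ j < n, (Cov p b ((W j).erase j) ∧ W (j + 1) = (W j).erase j) ∨
      (¬ Cov p b ((W j).erase j) ∧ W (j + 1) = W j))
    (h2 : ∀ j < n, (Cov p a (range n \ insert j (W (n + j))) ∧ (W (n + j)).card < τ ∧
      W (n + j + 1) = insert j (W (n + j))) ∨ (¬ (Cov p a (range n \ insert j (W (n + j))) ∧
      (W (n + j)).card < τ) ∧ W (n + j + 1) = W (n + j))) :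
    Q p (range n) a b (W (n + n)) ∧
      ∀ U, Q p (range n) a b U → U.card = τ → (W (n + n)).card = τ := by
  have p1 : ∀ j ≤ n, W j ⊆ range n ∧ Cov p b (W j) ∧ ∀ v ∈ W j, v < j → ¬ Cov p b ((W j).erase v) := by
    intro j
    induction j with
    | zero => exact fun _ => ⟨h0.le, fun X => by have := g.2.2 X; rw [h0]; omega, by simp⟩
    | succ j ih =>
      intro h
      obtain ⟨i1, i2, i3⟩ := ih (by omega)
      rcases h1 j h with ⟨c, e⟩ | ⟨c, e⟩ <;> rw [e]
      · exact ⟨(erase_subset _ _).trans i1, c, fun v x y z => i3 v (mem_of_mem_erase x)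
          (by grind only [mem_erase]) (z.mono (erase_subset_erase _ (erase_subset _ _)))⟩
      · exact ⟨i1, i2, by grind only⟩
  obtain ⟨a1, a2, a3⟩ := p1 n le_rfl
  have q0 := q_min g a1 a2 fun v h => a3 v h (mem_range.1 (a1 h))
  have p2 : ∀ j ≤ n, Q p (range n) a b (W (n + j)) ∧ ((W n).card ≤ τ → (W (n + j)).card ≤ τ) ∧
      ((W (n + j)).card < τ → ∀ y < j, y ∉ W (n + j) →
        ¬ Cov p a (range n \ insert y (W (n + j)))) := by
    intro j
    induction j with
    | zero => exact fun _ => ⟨q0, id, by simp⟩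
    | succ j ih =>
      intro h
      obtain ⟨i1, i2, i3⟩ := ih (by omega)
      rcases h2 j h with ⟨c, d, e⟩ | ⟨c, e⟩ <;> rw [← add_assoc, e]
      · exact ⟨⟨insert_subset (mem_range.2 h) i1.1, i1.2.1.mono (subset_insert _ _), c⟩,
          fun _ => (card_insert_le _ _).trans d, fun _ y x z w => i3 d y
          (by grind only [mem_insert]) (by grind only [mem_insert]) (w.mono (by
            intro x; grind only [mem_insert, mem_sdiff]))⟩
      · exact ⟨i1, i2, by grind only⟩
  obtain ⟨b1, b2, b3⟩ := p2 n le_rfl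
  refine ⟨b1, fun U u1 u2 => le_antisymm (b2 (not_lt.1 fun c => ?_)) (not_lt.1 fun c => ?_)⟩
  · obtain ⟨v, x, -, y⟩ := (q_gm g).down q0 u1 (by omega)
    exact a3 v x (mem_range.1 (a1 x)) y.2.1
  · obtain ⟨v, x, y, z⟩ := (q_gm g).up b1 u1 (by omega)
    exact b3 c v (mem_range.1 (u1.1 x)) y z.2.2

theorem orc_iff (n c : ℕ) (p q : Finset ℕ → ℤ) (i : Bool) (f : ℕ → Bool) :
    orc n p q (i, c, (List.range n).filter f) = true ↔
      Cov (fun X => (bif i then p else q) (X ∩ range n)) c ((List.range n).filter f).toFinset := by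
  simp only [orc, decide_eq_true_eq, Cov, mu_eq]
  refine ⟨fun h X => ?_, fun h X hX => ?_⟩
  · have := h _ (inter_subset_right (s₁ := X))
    rw [show X ∩ range n ∩ ((List.range n).filter f).toFinset = X ∩ ((List.range n).filter f).toFinset
      by ext; simp] at this
    omega
  · have := h X
    rw [inter_eq_left.2 hX] at this
    omega

theorem ans (x : Inp) (p q : Finset ℕ → ℤ) (j : ℕ) (σ : St) {t : ℕ} (ht : t < N x) {l : List Bool}
    (hl : l = (List.range (4 * N x)).map fun u => orc (N x) p q (qry x j σ u)) :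
    (l.getD (4 * t) false = true ↔
      Cov (fun X => p (X ∩ range (N x))) x.2.1 (cand (N x) j σ σ.1 t).toFinset) ∧
    (l.getD (4 * t + 1) false = true ↔
      Cov (fun X => q (X ∩ range (N x))) x.1 (cand (N x) j σ σ.2.1 t).toFinset) ∧
    (l.getD (4 * t + 2) false = true ↔
      Cov (fun X => p (X ∩ range (N x))) x.1 (range (N x) \ (cand (N x) j σ σ.1 t).toFinset)) ∧
    (l.getD (4 * t + 1 + 2) false = true ↔
      Cov (fun X => q (X ∩ range (N x))) x.2.1 (range (N x) \ (cand (N x) j σ σ.2.1 t).toFinset)) := by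
  have a : ∀ u < 4 * N x, l.getD u false = orc (N x) p q (qry x j σ u) := fun u h => by
    rw [hl, List.getD_eq_getElem _ _ (by simpa)]; simp
  have b : ∀ C : List ℕ, range (N x) \ C.toFinset =
      ((List.range (N x)).filter fun y => decide (y ∉ C)).toFinset := fun C => by ext; simp
  rw [a _ (by omega), a _ (by omega), a _ (by omega), a _ (by omega), b, b]
  simp only [qry, show 4 * t % 2 = 0 by omega, show 4 * t % 4 = 0 by omega,
    show 4 * t / 4 = t by omega, show (4 * t + 1) % 2 = 1 by omega, show (4 * t + 1) % 4 = 1 by omega,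
    show (4 * t + 1) / 4 = t by omega, show (4 * t + 2) % 2 = 0 by omega,
    show (4 * t + 2) % 4 = 2 by omega, show (4 * t + 2) / 4 = t by omega,
    show (4 * t + 1 + 2) % 2 = 1 by omega, show (4 * t + 1 + 2) % 4 = 3 by omega,
    show (4 * t + 1 + 2) / 4 = t by omega]
  exact ⟨orc_iff _ _ _ _ _ _, orc_iff _ _ _ _ _ _, orc_iff _ _ _ _ _ _, orc_iff _ _ _ _ _ _⟩

theorem cand_eq (n j : ℕ) (σ : St) {B : List ℕ} (h : B.toFinset ⊆ range n) (t : ℕ) :
    (j < n → (cand n j σ B t).toFinset = B.toFinset.erase j) ∧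
    (j < n → (cand n (n + j) σ B t).toFinset = insert j B.toFinset) ∧
    (us n σ ≠ [] → (cand n (n + n + j) σ B t).toFinset =
      insert ((us n σ).headD 0) (B.toFinset.erase t)) := by
  have : ∀ y ∈ B, y < n := fun y e => mem_range.1 (h (List.mem_toFinset.2 e))
  refine ⟨fun a => ?_, fun a => ?_, fun a => ?_⟩ <;> ext y
  · simp [cand, a]; grind
  · simp [cand, show n + j < 2 * n by omega]; grind
  · have : (us n σ).headD 0 < n := by
      cases h : us n σ with
      | nil => exact absurd h a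
      | cons s _ => exact List.mem_range.1 (List.mem_of_mem_filter (h ▸ List.mem_cons_self : s ∈ us _ σ))
    generalize e : (us n σ).headD 0 = s at this
    simp only [cand, e, show ¬ n + n + j < 2 * n by omega, show ¬ n + n + j < n by omega]
    simp; grind

theorem hd {l : List ℕ} (h : l ≠ []) : l.headD 0 ∈ l := by cases l <;> simp_all

theorem main (x : Inp) (p q : Finset ℕ → ℤ) (n0 : 0 < N x)
    (g : Good (fun X => p (X ∩ range (N x))) (range (N x)) (x.1 + x.2.1))
    (g' : Good (fun X => q (X ∩ range (N x))) (range (N x)) (x.1 + x.2.1)) :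
    vd x (sem (orc (N x) p q) x (N x + N x + (N x * (2 * N x) + 1))) = true ↔
      ∃ U, Q (fun X => p (X ∩ range (N x))) (range (N x)) x.1 x.2.1 U ∧
        Q (fun X => q (X ∩ range (N x))) (range (N x)) x.1 x.2.1 U ∧ U.card = x.1 * x.2.2.1 := by
  obtain ⟨σ, hσ⟩ : ∃ σ, σ = sem (orc (N x) p q) x := ⟨_, rfl⟩
  obtain ⟨l, hl⟩ : ∃ l : ℕ → List Bool, ∀ j, l j =
    (List.range (4 * N x)).map fun u => orc (N x) p q (qry x j (σ j) u) := ⟨_, fun _ => rfl⟩
  have A := fun j t ht => ans x p q j (σ j) (t := t) ht (hl j)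
  have e : ∀ j, σ (j + 1) = nxt x j (σ j) (l j) := fun j => by rw [hl, hσ]; rfl
  have h0 : σ 0 = (List.range (N x), List.range (N x), []) := by rw [hσ]; rfl
  have tr : (List.range (N x)).toFinset = range (N x) := by ext; simp
  rw [← hσ]
  clear hl hσ
  generalize (fun X => p (X ∩ range (N x))) = P, (fun X => q (X ∩ range (N x))) = R at *
  have b0 : ∀ j, (σ j).1.Nodup ∧ (σ j).2.1.Nodup ∧ (σ j).1.toFinset ⊆ range (N x) ∧
      (σ j).2.1.toFinset ⊆ range (N x) ∧ (j ≤ 2 * N x → (σ j).2.2 = []) := fun j => by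
    induction j with
    | zero => simp [h0, List.nodup_range, tr]
    | succ j ih =>
      have : ∀ B t, (cand (N x) j (σ j) B t).Nodup ∧ (cand (N x) j (σ j) B t).toFinset ⊆ range (N x) :=
        fun B t => ⟨List.nodup_range.filter _, fun y h => by
          simpa using List.mem_of_mem_filter (List.mem_toFinset.1 h)⟩
      rw [e, nxt]
      split_ifs <;> simp only [this, ih, true_and] <;> grind only
  have c1 := fun j => List.toFinset_card_of_nodup (b0 j).1
  have c2 := fun j => List.toFinset_card_of_nodup (b0 j).2.1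
  obtain ⟨u1, u2⟩ := greedy (τ := x.1 * x.2.2.1) g (fun j => (σ j).1.toFinset) (by simp [h0, tr])
    (fun j h => by
      have := (A j 0 n0).1
      have := (cand_eq _ j (σ j) (b0 j).2.2.1 0).1 h
      simp only [e, nxt, if_pos h]
      split <;> simp_all) fun j h => by
      have := (A (N x + j) 0 n0).2.2.1
      have := (cand_eq _ j (σ (N x + j)) (b0 (N x + j)).2.2.1 0).2.1 h
      simp only [e, nxt, c1, show ¬ N x + j < N x by omega, show N x + j < 2 * N x by omega, if_true,
        if_false]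
      split <;> simp_all
  obtain ⟨v1, v2⟩ := greedy (τ := x.2.1 * x.2.2.2) (add_comm x.1 _ ▸ g')
    (fun j => (σ j).2.1.toFinset) (by simp [h0, tr]) (fun j h => by
      have := (A j 0 n0).2.1
      have := (cand_eq _ j (σ j) (b0 j).2.2.2.1 0).1 h
      simp only [e, nxt, if_pos h]
      split <;> simp_all) fun j h => by
      have := (A (N x + j) 0 n0).2.2.2
      have := (cand_eq _ j (σ (N x + j)) (b0 (N x + j)).2.2.2.1 0).2.1 h
      simp only [e, nxt, c2, show ¬ N x + j < N x by omega, show N x + j < 2 * N x by omega, if_true,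
        if_false]
      split <;> simp_all
  generalize hτ : (σ (N x + N x)).1.toFinset.card = τ at u2
  generalize hυ : (σ (N x + N x)).2.1.toFinset.card = υ at v2
  have m1 := (q_gm g).slice τ
  have m2 := (q_gm (add_comm x.1 _ ▸ g')).slice υ
  have p3 : ∀ i, Inv (range (N x)) (fun U => Q P (range (N x)) x.1 x.2.1 U ∧ U.card = τ)
      (fun U => Q R (range (N x)) x.2.1 x.1 U ∧ U.card = υ) (σ (N x + N x + i)).1.toFinset
      (σ (N x + N x + i)).2.1.toFinset (fun y => (σ (N x + N x + i)).2.2.count y) ∧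
      (us (N x) (σ (N x + N x + i)) = [] ∨ i ≤ Ψ (range (N x)) (σ (N x + N x + i)).1.toFinset
      (σ (N x + N x + i)).2.1.toFinset fun y => (σ (N x + N x + i)).2.2.count y) := fun i => by
    induction i with
    | zero =>
      simp only [add_zero, (b0 _).2.2.2.2 (two_mul _).ge]
      exact ⟨⟨⟨⟨u1, hτ⟩, by simp⟩, ⟨⟨v1, hυ⟩, by simp⟩, by simp, by simp⟩, by simp⟩
    | succ i ih =>
      obtain ⟨i1, i2⟩ := ih
      have A := A (N x + N x + i)
      have k1 := fun t => (cand_eq _ i (σ (N x + N x + i)) (b0 (N x + N x + i)).2.2.1 t).2.2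
      have k2 := fun t => (cand_eq _ i (σ (N x + N x + i)) (b0 (N x + N x + i)).2.2.2.1 t).2.2
      rw [← add_assoc, e, nxt, if_neg (by omega), if_neg (by omega)]
      generalize σ (N x + N x + i) = s, l (N x + N x + i) = w at *
      by_cases hu : us (N x) s = []
      · rw [if_pos hu]; exact ⟨i1, .inl hu⟩
      have i2 := i2.resolve_left hu
      have hs := hd hu
      rw [if_neg hu]
      simp only [k1 _ hu, k2 _ hu] at A
      have n1 : ∀ t ∈ s.1, t < N x := fun t h => mem_range.1 (i1.1.1.1.1 (List.mem_toFinset.2 h))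
      have n2 : ∀ t ∈ s.2.1, t < N x := fun t h => mem_range.1 (i1.2.1.1.1.1 (List.mem_toFinset.2 h))
      rw [us, List.mem_filter, ← us, List.mem_range, decide_eq_true_eq] at hs
      obtain ⟨s0, s1, s2, s3⟩ := hs
      rw [← List.mem_toFinset] at s1 s2
      have w1 : ∀ t, t ∈ pv (N x) s s.1 w 0 ↔ t ∈ s.1 ∧ (Q P (range (N x)) x.1 x.2.1
          (insert ((us (N x) s).headD 0) (s.1.toFinset.erase t)) ∧
          (insert ((us (N x) s).headD 0) (s.1.toFinset.erase t)).card = τ) ∧
          s.2.2.count t + 1 = s.2.2.count ((us (N x) s).headD 0) := fun t => by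
        simp only [pv, List.mem_filter, List.mem_range, decide_eq_true_eq, add_zero]
        refine ⟨fun ⟨a, b, c, d, e⟩ => ⟨b, ⟨⟨insert_subset (mem_range.2 s0) ((erase_subset _ _).trans
          i1.1.1.1.1), (A t a).1.1 c, (A t a).2.2.1.1 d⟩, (card_x s1 (by simpa)).trans
          i1.1.1.2⟩, e⟩, fun ⟨a, b, c⟩ => ⟨n1 t a, a, (A t (n1 t a)).1.2 b.1.2.1,
          (A t (n1 t a)).2.2.1.2 b.1.2.2, c⟩⟩
      have w2 : ∀ t, t ∈ pv (N x) s s.2.1 w 1 ↔ t ∈ s.2.1 ∧ (Q R (range (N x)) x.2.1 x.1
          (insert ((us (N x) s).headD 0) (s.2.1.toFinset.erase t)) ∧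
          (insert ((us (N x) s).headD 0) (s.2.1.toFinset.erase t)).card = υ) ∧
          s.2.2.count t + 1 = s.2.2.count ((us (N x) s).headD 0) := fun t => by
        simp only [pv, List.mem_filter, List.mem_range, decide_eq_true_eq]
        refine ⟨fun ⟨a, b, c, d, e⟩ => ⟨b, ⟨⟨insert_subset (mem_range.2 s0) ((erase_subset _ _).trans
          i1.2.1.1.1.1), (A t a).2.1.1 c, (A t a).2.2.2.1 d⟩, (card_x s2 (by simpa)).trans
          i1.2.1.1.2⟩, e⟩, fun ⟨a, b, c⟩ => ⟨n2 t a, a, (A t (n2 t a)).2.1.2 b.1.2.1,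
          (A t (n2 t a)).2.2.2.2 b.1.2.2, c⟩⟩
      split_ifs with y1 y2
      · have := i1.lift (mem_range.2 s0) s1 s2 (by rwa [card_range])
          (fun t a b c => by simpa [y1] using (w1 t).2 ⟨by simpa using a, b, c⟩)
          fun t a b c => by simpa [y2] using (w2 t).2 ⟨by simpa using a, b, c⟩
        simp only [List.count_cons, beq_iff_eq]
        exact ⟨this.1, .inr (by omega)⟩
      · obtain ⟨a, b, c⟩ := (w2 _).1 (hd y2)
        obtain ⟨h1, h2⟩ := i1.symm.push m2 (mem_range.2 s0) s2 s1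
          (mem_range.2 (n2 _ a)) (List.mem_toFinset.2 a) b c
        rw [psi_symm, @psi_symm _ _ s.1.toFinset] at h2
        simp only [k2 _ hu]
        exact ⟨h1.symm, .inr (by omega)⟩
      · obtain ⟨a, b, c⟩ := (w1 _).1 (hd y1)
        have := i1.push m1 (mem_range.2 s0) s1 s2 (mem_range.2 (n1 _ a))
          (List.mem_toFinset.2 a) b c
        simp only [k1 _ hu]
        exact ⟨this.1, .inr (by omega)⟩
  obtain ⟨i1, i2⟩ := p3 (N x * (2 * N x) + 1)
  have i2 := i2.resolve_right (by have := i1.bd; rw [card_range] at this; omega)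
  simp only [vd, Bool.and_eq_true, decide_eq_true_eq, List.all_eq_true, List.mem_range, ← c1, ← c2]
  generalize σ (N x + N x + (N x * (2 * N x) + 1)) = s at *
  have sz : ∀ U ⊆ range (N x), U.card = x.1 * x.2.2.1 → (range (N x) \ U).card = x.2.1 * x.2.2.2 :=
    fun U a b => by rw [card_sdiff_of_subset a, b, card_range, N]; omega
  refine ⟨fun ⟨⟨a, b⟩, c⟩ => ⟨_, i1.1.1.1, ?_, a⟩, fun ⟨U, a, b, c⟩ => ?_⟩
  · have := i1.2.1.1.1.compl
    rwa [← eq_of_subset_of_card_le (s := range (N x) \ s.1.toFinset) (t := s.2.1.toFinset)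
      (fun y h => by have := c y; simp_all) (by rw [sz _ i1.1.1.1.1 a, b]),
      Finset.sdiff_sdiff_eq_self i1.1.1.1.1] at this
  have a1 := u2 U a c
  have a2 := v2 _ b.compl (sz U a.1 c)
  refine ⟨⟨i1.1.1.2.trans a1, i1.2.1.1.2.trans a2⟩, fun y hy => ?_⟩
  by_contra! h
  obtain ⟨H, f⟩ := i1.cert m1 m2 (fun _ h => h.1.1) (fun _ h => h.1.1) (mem_range.2 hy)
    (by simpa using h.1) (by simpa using h.2) (by
      simpa [h] using List.filter_eq_nil_iff.1 i2 y (by simpa))
  have := f U _ ⟨a, c.trans a1.symm⟩ ⟨b.compl, (sz U a.1 c).trans a2.symm⟩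
  have := mu_sd a.1 H
  omega

theorem result : (∀ x p q, Valid x p q → (Feasible x p q ↔ ∃ U ⊆ range (N x),
      U.card = x.1 * x.2.2.1 ∧ ∀ X ⊆ range (N x), max (p X) (q X) ≤ x.2.1 + (X ∩ U).card ∧
        max (p X) (q X) ≤ x.1 + (X \ U).card)) ∧
    ∃ (A : Inp × List Bool → Qu × Bool) (r : Polynomial ℕ), PolyTime bits bits A ∧
      ∀ x p q, Valid x p q →
        ((A (x, hist A (orc (N x) p q) x (r.eval (N x)))).2 = true ↔ Feasible x p q) := by
  have gd : ∀ {S p k}, SkewOn S p → (∀ X ⊆ S, p X ≤ min (X.card : ℤ) (k : ℕ)) →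
      Good (fun X => p (X ∩ S)) S k := fun {S p k} a b => by
    refine ⟨fun X Y => ?_, fun X => ?_, fun X => ?_⟩
    · have := a _ (inter_subset_right (s₁ := X)) _ (inter_subset_right (s₁ := Y))
      have e : ∀ X Y : Finset ℕ, (X ∩ S) \ (Y ∩ S) = (X \ Y) ∩ S := fun X Y => by
        ext; grind only [mem_inter, mem_sdiff]
      rwa [← inter_inter_distrib_right, ← union_inter_distrib_right, e, e] at this
    all_goals
      have := b _ (inter_subset_right (s₁ := X))
      simp only [mu_eq]; omega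
  have ch : ∀ x p q, Valid x p q → 0 < N x ∧
      Good (fun X => p (X ∩ range (N x))) (range (N x)) (x.1 + x.2.1) ∧
      Good (fun X => q (X ∩ range (N x))) (range (N x)) (x.1 + x.2.1) ∧ (Feasible x p q ↔
      ∃ U, Q (fun X => p (X ∩ range (N x))) (range (N x)) x.1 x.2.1 U ∧
        Q (fun X => q (X ∩ range (N x))) (range (N x)) x.1 x.2.1 U ∧ U.card = x.1 * x.2.2.1) := by
    rintro x p q ⟨a, b, c, d, e, f, h⟩
    have g := gd e fun X hX => (le_max_left _ _).trans (h X hX)
    have g' := gd f fun X hX => (le_max_right _ _).trans (h X hX)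
    refine ⟨by unfold N; positivity, g, g', Iff.trans ?_ (char g g' (card_range _))⟩
    refine exists_congr fun c => and_congr (by simp) (and_congr_right fun _ =>
      ⟨fun h => ⟨fun X => ?_, fun X => ?_⟩, fun h X hX => ?_⟩)
    · exact (le_max_left _ _).trans (h _ inter_subset_right)
    · exact (le_max_right _ _).trans (h _ inter_subset_right)
    · simpa [inter_eq_left.2 hX] using And.intro (h.1 X) (h.2 X)
  refine ⟨fun x p q h => (ch x p q h).2.2.2.trans (exists_congr fun U => ?_), alg,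
    (.X + .X + (.X * (2 * .X) + 1)) * (4 * .X), pt_alg.polyTime, fun x p q h => ?_⟩
  · refine ⟨fun ⟨a, b, c⟩ => ⟨a.1, c, fun X hX => ?_⟩, fun ⟨a, b, c⟩ => ?_⟩
    · have : X ∩ (range (N x) \ U) = X \ U := by ext; grind only [mem_inter, mem_sdiff, subset_iff]
      simpa [mu_eq, inter_eq_left.2 hX, this, and_and_and_comm] using
        And.intro (And.intro (a.2.1 X) (a.2.2 X)) (And.intro (b.2.1 X) (b.2.2 X))
    · have : ∀ X, (max (p (X ∩ range (N x))) (q (X ∩ range (N x))) ≤ x.2.1 + μ U X) ∧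
          max (p (X ∩ range (N x))) (q (X ∩ range (N x))) ≤ x.1 + μ (range (N x) \ U) X := fun X => by
        simpa [mu_eq, inter_assoc, inter_eq_right.2 a, inter_sdiff_assoc] using
          c _ (inter_subset_right (s₁ := X))
      simp only [max_le_iff] at this
      exact ⟨⟨a, fun X => (this X).1.1, fun X => (this X).2.1⟩,
        ⟨a, fun X => (this X).1.2, fun X => (this X).2.2⟩, b⟩
  · obtain ⟨a, b, c, d⟩ := ch x p q h
    simp only [alg, hist_eq, Polynomial.eval_mul, Polynomial.eval_add, Polynomial.eval_X,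
      Polynomial.eval_ofNat, Polynomial.eval_one]
    rw [Nat.mul_div_cancel _ (by omega), main x p q a b c, d]

end Pool.Agent.Results.MP_1195b1_lc.Poly
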